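import Pool.Agent.Q297.NucMain

/-!
MP_afaa81, Q1: proved. If the binary matrices `P k` admit stable recovery of low rank matrices and
the matrices `A k` have uniformly bounded rank and entries, then every choice of (unconstrained)
nuclear norm minimisers `X k` for `(A k, P k)` satisfies `‖X k - A k‖ → 0` in the normalized
Frobenius norm.
-/

open Filter Topology Pool.Agent.Q297.Nuc

namespace Pool.Agent.Results.MP_afaa81_pr.NuclearRecovery

theorem result (m n : ℕ → ℕ) (hm : Tendsto m atTop atTop) (hn : Tendsto n atTop atTop)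
    (P : ∀ k, Matrix (Fin (m k)) (Fin (n k)) ℝ) (hP : ∀ k, IsBinary (P k))
    (hstab : StableRecovery m n P)
    (A X : ∀ k, Matrix (Fin (m k)) (Fin (n k)) ℝ) (K : ℕ) (L : ℝ)
    (hrank : ∀ k, (A k).rank ≤ K) (hA : ∀ k a b, |A k a b| ≤ L)
    (hX : ∀ k, IsNucMin (A k) (P k) (X k)) :
    Tendsto (fun k => nF (X k - A k)) atTop (𝓝 0) :=
  main hm hn hP hstab hrank hA hX

end Pool.Agent.Results.MP_afaa81_pr.NuclearRecovery
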